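import Mathlib

set_option autoImplicit false

namespace Pool.Agent.H74.Sib

open FreeGroup Set

section Cocycle

variable {T : Type} (D : T → Set (FreeGroup T))

open Classical in
/-- The indicator function of a set, with values in `ZMod 2`. -/
noncomputable def ind (S : Set (FreeGroup T)) (u : FreeGroup T) : ZMod 2 :=
  if u ∈ S then 1 else 0

/-- The permutation of `FreeGroup T × ZMod 2` attached to a generator. -/
noncomputable def genPerm (t : T) : Equiv.Perm (FreeGroup T × ZMod 2) where
  toFun p := (of t * p.1, p.2 + ind (D t) (of t * p.1))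
  invFun p := ((of t)⁻¹ * p.1, p.2 - ind (D t) p.1)
  left_inv p := by
    ext <;> simp
  right_inv p := by
    ext <;> simp

/-- The action of the free group on `FreeGroup T × ZMod 2`. -/
noncomputable def act : FreeGroup T →* Equiv.Perm (FreeGroup T × ZMod 2) :=
  FreeGroup.lift (genPerm D)

theorem act_of (t : T) : act D (of t) = genPerm D t := by simp [act]

theorem act_fst (w : FreeGroup T) : ∀ p : FreeGroup T × ZMod 2, (act D w p).1 = w * p.1 := by
  induction w using FreeGroup.induction_on with
  | C1 => intro p; simp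
  | of t => intro p; simp [act, genPerm]
  | inv_of t _ =>
    intro p
    rw [_root_.map_inv, act_of]
    rfl
  | mul x y hx hy =>
    intro p
    rw [_root_.map_mul, Equiv.Perm.mul_apply, hx, hy, mul_assoc]

/-- The height function. -/
noncomputable def height (w : FreeGroup T) : ZMod 2 := (act D w (1, 1)).2

theorem act_one (w : FreeGroup T) : act D w (1, 1) = (w, height D w) := by
  ext
  · simp [act_fst]
  · rfl

theorem height_of_mul (t : T) (w : FreeGroup T) :
    height D (of t * w) = height D w + ind (D t) (of t * w) := by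
  have : act D (of t * w) (1, 1) = genPerm D t (act D w (1, 1)) := by
    rw [_root_.map_mul, Equiv.Perm.mul_apply, act_of]
  rw [height, this, act_one]
  rfl

theorem exists_cocycle_set :
    ∃ A : Set (FreeGroup T), ∀ (t : T) (u : FreeGroup T),
      ((of t)⁻¹ * u ∈ A ↔ (u ∈ A ↔ u ∉ D t)) := by
  refine ⟨{w | height D w = 1}, fun t u => ?_⟩
  have h := height_of_mul D t ((of t)⁻¹ * u)
  rw [mul_inv_cancel_left] at h
  simp only [mem_ofPred_eq]
  rw [h]
  generalize height D ((of t)⁻¹ * u) = a
  unfold ind
  by_cases hu : u ∈ D t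
  · simp only [hu, if_true]
    revert a
    decide
  · simp only [hu, if_false]
    revert a
    decide

end Cocycle

section Parity

variable {G : Type} [Group G] (A : Set G)

/-- The set of elements on which `A` and `g A` differ. -/
def diffSet (g : G) : Set G := {u | ¬ (u ∈ A ↔ g⁻¹ * u ∈ A)}

/-- Finite of even cardinality. -/
def EvenFin (X : Set G) : Prop := X.Finite ∧ Even X.ncard

theorem EvenFin.symmDiff' {X Y Z : Set G} (hX : EvenFin X) (hY : EvenFin Y)
    (hZ : ∀ u, u ∈ Z ↔ ¬ (u ∈ X ↔ u ∈ Y)) : EvenFin Z := by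
  have hZ' : Z = (X \ Y) ∪ (Y \ X) := by
    ext u
    rw [hZ]
    simp only [mem_union, mem_diff]
    tauto
  subst hZ'
  refine ⟨(hX.1.diff).union (hY.1.diff), ?_⟩
  rw [Set.ncard_union_eq (by
    rw [Set.disjoint_left]
    rintro u ⟨h1, _⟩ ⟨_, h2⟩
    exact h2 h1) hX.1.diff hY.1.diff]
  have h1 := Set.ncard_inter_add_ncard_diff_eq_ncard X Y hX.1
  have h2 := Set.ncard_inter_add_ncard_diff_eq_ncard Y X hY.1
  rw [Set.inter_comm Y X] at h2
  have e1 := hX.2
  have e2 := hY.2
  rw [Nat.even_iff] at e1 e2 ⊢
  omega

theorem diffSet_one : diffSet A 1 = ∅ := by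
  ext u
  simp [diffSet]

theorem evenFin_empty : EvenFin (∅ : Set G) := by
  simp [EvenFin]

theorem EvenFin.preimage_mul {X : Set G} (hX : EvenFin X) (g : G) :
    EvenFin {u | g * u ∈ X} := by
  have : {u | g * u ∈ X} = (fun v => g⁻¹ * v) '' X := by
    ext u
    constructor
    · intro hu
      exact ⟨g * u, hu, by simp⟩
    · rintro ⟨v, hv, rfl⟩
      simpa using hv
  rw [this]
  refine ⟨hX.1.image _, ?_⟩
  rw [Set.ncard_image_of_injective _ (mul_right_injective g⁻¹)]
  exact hX.2

theorem evenFin_diffSet_inv {g : G} (h : EvenFin (diffSet A g)) : EvenFin (diffSet A g⁻¹) := by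
  have : diffSet A g⁻¹ = {u | g * u ∈ diffSet A g} := by
    ext u
    simp only [diffSet, mem_ofPred_eq, inv_inv, inv_mul_cancel_left]
    tauto
  rw [this]
  exact h.preimage_mul g

theorem evenFin_diffSet_mul {g h : G} (hg : EvenFin (diffSet A g)) (hh : EvenFin (diffSet A h)) :
    EvenFin (diffSet A (g * h)) := by
  refine hg.symmDiff' (hh.preimage_mul g⁻¹) ?_
  intro u
  simp only [diffSet, mem_ofPred_eq, mul_inv_rev, mul_assoc]
  tauto

end Parity

section Main

open Classical in
/-- Prescribed symmetric differences. -/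
noncomputable def pairSet {G : Type} (x y : G) : Set G := {u | x ≠ y ∧ (u = x ∨ u = y)}

theorem evenFin_pairSet {G : Type} [Group G] (x y : G) : EvenFin (pairSet x y) := by
  by_cases h : x = y
  · have : pairSet x y = ∅ := by
      ext u
      simp [pairSet, h]
    rw [this]
    exact evenFin_empty
  · have : pairSet x y = {x, y} := by
      ext u
      simp [pairSet, h]
    rw [this]
    refine ⟨by simp, ?_⟩
    rw [Set.ncard_pair h]
    exact even_two

theorem exists_main_set :
    ∃ A : Set (FreeGroup ℕ), A.Infinite ∧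
      (∀ g, EvenFin (diffSet A g)) ∧
      (∀ x ∈ A, ∀ y ∈ A, x ≠ y → ∃ g, ∀ u, g⁻¹ * u ∈ A ↔ (u ∈ A ∧ u ≠ x ∧ u ≠ y)) ∧
      (∀ x ∈ A, ∀ y ∈ A, ∃ g, ∀ u, (g⁻¹ * u ∈ A ∧ g⁻¹ * u ≠ x) ↔ (u ∈ A ∧ u ≠ y)) := by
  classical
  obtain ⟨e, he⟩ := exists_surjective_nat (FreeGroup ℕ × FreeGroup ℕ × Bool)
  let D : ℕ → Set (FreeGroup ℕ) := fun n =>
    pairSet (if (e n).2.2 then of n * (e n).1 else (e n).1) (e n).2.1
  obtain ⟨A, hA⟩ := exists_cocycle_set D
  have hD : ∀ n, diffSet A (of n) = D n := by
    intro n
    ext u
    have := hA n u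
    simp only [diffSet, mem_ofPred_eq]
    tauto
  have hpar : ∀ g, EvenFin (diffSet A g) := by
    intro g
    induction g using FreeGroup.induction_on with
    | C1 => rw [diffSet_one]; exact evenFin_empty
    | of n => rw [hD]; exact evenFin_pairSet _ _
    | inv_of n h => exact evenFin_diffSet_inv A h
    | mul x y hx hy => exact evenFin_diffSet_mul A hx hy
  refine ⟨A, ?_, hpar, ?_, ?_⟩
  · intro hfin
    have hinf : (Aᶜ : Set (FreeGroup ℕ)).Infinite := hfin.infinite_compl
    obtain ⟨x, hx⟩ := hinf.nonempty
    obtain ⟨y, hy, hyx⟩ := hinf.exists_notMem_finite (Set.finite_singleton x)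
    obtain ⟨n, hn⟩ := he (x, y, false)
    have hxy : x ≠ y := fun h => hyx (by simp [h])
    have key : (fun v => of n * v) '' A = A ∪ {x, y} := by
      ext u
      have h1 := hA n u
      have h2 : u ∈ D n ↔ (u = x ∨ u = y) := by
        simp [D, hn, pairSet, hxy]
      constructor
      · rintro ⟨v, hv, rfl⟩
        rw [inv_mul_cancel_left] at h1
        simp only [mem_union, mem_insert_iff, mem_singleton_iff]
        tauto
      · intro hu
        refine ⟨(of n)⁻¹ * u, ?_, by simp⟩
        rw [h1, h2]
        simp only [mem_union, mem_insert_iff, mem_singleton_iff] at hu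
        constructor
        · rintro huA (rfl | rfl)
          · exact hx huA
          · exact hy huA
        · intro h
          tauto
    have c1 := Set.ncard_image_of_injective A (mul_right_injective (of n))
    rw [key, Set.ncard_union_eq (by
      rw [Set.disjoint_right]
      rintro u (rfl | rfl)
      · exact hx
      · exact hy) hfin (by simp), Set.ncard_pair hxy] at c1
    omega
  · intro x hx y hy hxy
    obtain ⟨n, hn⟩ := he (x, y, false)
    refine ⟨of n, fun u => ?_⟩
    have h1 := hA n u
    have h2 : u ∈ D n ↔ (u = x ∨ u = y) := by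
      simp [D, hn, pairSet, hxy]
    rw [h1, h2]
    constructor
    · intro h
      by_cases hu : u ∈ A
      · refine ⟨hu, ?_⟩
        tauto
      · exfalso
        apply hu
        rw [h]
        rintro (rfl | rfl)
        · exact hu hx
        · exact hu hy
    · rintro ⟨h, h1, h2⟩
      tauto
  · intro x hx y hy
    obtain ⟨n, hn⟩ := he (x, y, true)
    refine ⟨of n, fun u => ?_⟩
    have h1 := hA n u
    have h2 : u ∈ D n ↔ (of n * x ≠ y ∧ (u = of n * x ∨ u = y)) := by
      simp [D, hn, pairSet]
    have h3 : (of n)⁻¹ * u ≠ x ↔ u ≠ of n * x := by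
      rw [not_iff_not, inv_mul_eq_iff_eq_mul]
    rw [h3]
    by_cases hxy : of n * x = y
    · rw [hxy] at h2 ⊢
      simp only [ne_eq, not_true_eq_false, false_and, iff_false] at h2
      rw [h1]
      tauto
    · -- here `of n * x` is not in `A`
      have h4 : of n * x ∉ A := by
        have h5 := hA n (of n * x)
        rw [inv_mul_cancel_left] at h5
        have h6 : of n * x ∈ D n := by
          simp [D, hn, pairSet, hxy]
        tauto
      rw [h1, h2]
      constructor
      · rintro ⟨h5, h6⟩
        have h7 : u ≠ y → u ∈ A := by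
          intro h7
          rw [h5]
          tauto
        by_cases h8 : u = y
        · exfalso
          subst h8
          tauto
        · exact ⟨h7 h8, h8⟩
      · rintro ⟨h5, h6⟩
        have h7 : u ≠ of n * x := by
          rintro rfl
          exact h4 h5
        tauto

end Main

end Pool.Agent.H74.Sib
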