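import Mathlib

set_option autoImplicit false

namespace Pool.Agent.H74.Sib

open FirstOrder FirstOrder.Language Set

/-- Binary relation symbols indexed by the group. -/
inductive Rel (G : Type) : ℕ → Type
  | mk (g : G) : Rel G 2

/-- The language with a binary relation symbol for each group element. -/
def LG (G : Type) : FirstOrder.Language.{0, 0} := ⟨fun _ => Empty, Rel G⟩

instance instRelLG (G : Type) : (LG G).IsRelational := fun _ => inferInstanceAs (IsEmpty Empty)

instance instCountRel (G : Type) [Countable G] (n : ℕ) : Countable (Rel G n) := by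
  have : Function.Injective (fun r : Rel G n => (match n, r with | _, Rel.mk g => g : G)) := by
    intro r s h
    cases r
    cases s
    simpa using h
  exact this.countable

instance instCountLG (G : Type) [Countable G] : Countable (LG G).Symbols := by
  have : ∀ n, Countable ((LG G).Relations n) := fun n => instCountRel G n
  have : ∀ n, Countable ((LG G).Functions n) := fun n => inferInstanceAs (Countable Empty)
  infer_instance

variable {G : Type} [Group G]

/-- The structure on a subset `A` of a group: the relation `R_g` holds of `(a, b)` when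
`a * g = b`. -/
instance structA (A : Set G) : (LG G).Structure A where
  funMap := fun f => f.elim
  RelMap := fun {n} r v => match n, r, v with
    | _, Rel.mk g, v => ((v 0 : A) : G) * g = ((v 1 : A) : G)

/-- The symbol of `R_g`. -/
def relSym (g : G) : (LG G).Relations 2 := Rel.mk g

theorem relMap_mk (A : Set G) (g : G) (v : Fin 2 → A) :
    Structure.RelMap (relSym g) v ↔ (v 0 : G) * g = v 1 :=
  Iff.rfl

/-- Unary definable sets. -/
def Def1 (A : Set G) (D : Set A) : Prop :=
  (univ : Set A).Definable (LG G) {v : Fin 1 → A | v 0 ∈ D}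

theorem definable_rel (A : Set G) (g : G) :
    (univ : Set A).Definable (LG G) {v : Fin 2 → A | (v 0 : G) * g = v 1} := by
  rw [definable_iff_exists_formula_sum]
  refine ⟨Relations.formula₂ (relSym g) (Term.var (Sum.inr 0)) (Term.var (Sum.inr 1)), ?_⟩
  ext v
  rw [mem_ofPred_eq, mem_ofPred_eq, Formula.realize_rel₂, relMap_mk]
  simp

theorem def1_empty (A : Set G) : Def1 A ∅ := by
  have : {v : Fin 1 → A | v 0 ∈ (∅ : Set A)} = ∅ := by ext; simp
  rw [Def1, this]
  exact definable_empty

theorem def1_compl {A : Set G} {D : Set A} (h : Def1 A D) : Def1 A Dᶜ := by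
  have : {v : Fin 1 → A | v 0 ∈ Dᶜ} = {v : Fin 1 → A | v 0 ∈ D}ᶜ := by ext; simp
  rw [Def1, this]
  exact Definable.compl h

theorem def1_union {A : Set G} {D E : Set A} (h : Def1 A D) (h' : Def1 A E) :
    Def1 A (D ∪ E) := by
  have : {v : Fin 1 → A | v 0 ∈ D ∪ E} = {v : Fin 1 → A | v 0 ∈ D} ∪ {v : Fin 1 → A | v 0 ∈ E} := by
    ext; simp
  rw [Def1, this]
  exact Definable.union h h'

theorem def1_univ (A : Set G) : Def1 A univ := by
  have := def1_compl (def1_empty A)
  rwa [compl_empty] at this

theorem def1_singleton (A : Set G) (m : A) : Def1 A {m} := by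
  rw [Def1, definable_iff_exists_formula_sum]
  refine ⟨Term.equal (Term.var (Sum.inr 0)) (Term.var (Sum.inl ⟨m, mem_univ m⟩)), ?_⟩
  ext v
  simp [Formula.realize_equal]

theorem def1_pre {A : Set G} {D : Set A} (h : Def1 A D) (g : G) :
    Def1 A {m | ∃ b ∈ D, (m : G) * g = b} := by
  have h1 := definable_rel A g
  have h2 := Definable.preimage_comp (β := Fin 2) ![1] h
  have h3 := (Definable.inter h1 h2).image_comp ![(0 : Fin 2)]
  have : {v : Fin 1 → A | v 0 ∈ {m : A | ∃ b ∈ D, (m : G) * g = b}} =
      (fun g : Fin 2 → A => g ∘ ![(0 : Fin 2)]) ''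
        ({v : Fin 2 → A | (v 0 : G) * g = v 1} ∩
          (fun g : Fin 2 → A => g ∘ ![1]) ⁻¹' {v : Fin 1 → A | v 0 ∈ D}) := by
    ext v
    simp only [mem_ofPred_eq, mem_image, mem_inter_iff, mem_preimage, Function.comp_apply]
    constructor
    · rintro ⟨b, hb, hvb⟩
      refine ⟨![v 0, b], ⟨by simpa using hvb, by simpa using hb⟩, ?_⟩
      ext i
      fin_cases i
      simp
    · rintro ⟨w, ⟨hw1, hw2⟩, rfl⟩
      exact ⟨w 1, by simpa using hw2, by simpa using hw1⟩
  rw [Def1, this]
  exact h3

/-- The Boolean algebra of subsets of `ι → A` generated by the unary definable sets and the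
basic relations. -/
inductive BA (A : Set G) (ι : Type) : Set (ι → A) → Prop
  | empty : BA A ι ∅
  | compl {s : Set (ι → A)} : BA A ι s → BA A ι sᶜ
  | union {s t : Set (ι → A)} : BA A ι s → BA A ι t → BA A ι (s ∪ t)
  | unary (i : ι) (D : Set A) (hD : Def1 A D) : BA A ι {x | x i ∈ D}
  | rel (i j : ι) (g : G) : BA A ι {x | ((x i : A) : G) * g = x j}

namespace BA

variable {A : Set G} {ι : Type}

theorem univ' : BA A ι univ := by
  have := (BA.empty (A := A) (ι := ι)).compl
  rwa [compl_empty] at this

theorem inter {s t : Set (ι → A)} (hs : BA A ι s) (ht : BA A ι t) : BA A ι (s ∩ t) := by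
  have := (hs.compl.union ht.compl).compl
  rwa [compl_union, compl_compl, compl_compl] at this

theorem const (p : Prop) : BA A ι {_x | p} := by
  by_cases h : p
  · have : {_x : ι → A | p} = univ := by ext; simp [h]
    rw [this]; exact univ'
  · have : {_x : ι → A | p} = ∅ := by ext; simp [h]
    rw [this]; exact BA.empty

theorem iUnion_fin {κ : Type} [Finite κ] {f : κ → Set (ι → A)} (h : ∀ k, BA A ι (f k)) :
    BA A ι (⋃ k, f k) := by
  classical
  have := Fintype.ofFinite κ
  have key : ∀ s : Finset κ, BA A ι (⋃ k ∈ s, f k) := by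
    intro s
    induction s using Finset.induction_on with
    | empty => simpa using BA.empty
    | insert a s _ ih =>
      rw [Finset.set_biUnion_insert]
      exact (h a).union ih
  simpa using key Finset.univ

theorem iInter_fin {κ : Type} [Finite κ] {f : κ → Set (ι → A)} (h : ∀ k, BA A ι (f k)) :
    BA A ι (⋂ k, f k) := by
  have := (iUnion_fin (fun k => (h k).compl)).compl
  rwa [compl_iUnion, iInter_congr (fun k => compl_compl (f k))] at this

theorem comap {ι' : Type} (c : ι' → ι) {s : Set (ι' → A)} (h : BA A ι' s) :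
    BA A ι {x | x ∘ c ∈ s} := by
  induction h with
  | empty => exact BA.empty
  | compl _ ih => exact ih.compl
  | union _ _ ih1 ih2 => exact ih1.union ih2
  | unary i D hD => exact BA.unary (c i) D hD
  | rel i j g => exact BA.rel (c i) (c j) g

/-- Extension of a tuple by one more element. -/
def ext' (x : ι → A) (b : A) : Option ι → A := fun o => o.elim b x

theorem dom (i : ι) (g : G) : BA A ι {x | ∃ b : A, ((x i : A) : G) * g = b} := by
  have := BA.unary i _ (def1_pre (def1_univ A) g)
  simpa using this

theorem sub {s : Set (Option ι → A)} (h : BA A (Option ι) s) (i : ι) (g : G) :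
    BA A ι {x | ∃ b : A, ((x i : A) : G) * g = b ∧ ext' x b ∈ s} := by
  induction h with
  | empty => simpa using BA.empty
  | @compl s _ ih =>
    have : {x : ι → A | ∃ b : A, ((x i : A) : G) * g = b ∧ ext' x b ∈ sᶜ} =
        {x | ∃ b : A, ((x i : A) : G) * g = b} ∩
        {x | ∃ b : A, ((x i : A) : G) * g = b ∧ ext' x b ∈ s}ᶜ := by
      ext x
      simp only [mem_ofPred_eq, mem_inter_iff, mem_compl_iff]
      constructor
      · rintro ⟨b, hb, hx⟩
        refine ⟨⟨b, hb⟩, ?_⟩
        rintro ⟨b', hb', hx'⟩
        have : b = b' := Subtype.ext (hb.symm.trans hb')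
        subst this
        exact hx hx'
      · rintro ⟨⟨b, hb⟩, h⟩
        exact ⟨b, hb, fun hx => h ⟨b, hb, hx⟩⟩
    rw [this]
    exact (dom i g).inter ih.compl
  | @union s t _ _ ih1 ih2 =>
    have : {x : ι → A | ∃ b : A, ((x i : A) : G) * g = b ∧ ext' x b ∈ s ∪ t} =
        {x | ∃ b : A, ((x i : A) : G) * g = b ∧ ext' x b ∈ s} ∪
        {x | ∃ b : A, ((x i : A) : G) * g = b ∧ ext' x b ∈ t} := by
      ext x
      simp only [mem_ofPred_eq, mem_union]
      constructor
      · rintro ⟨b, hb, hx | hx⟩
        · exact Or.inl ⟨b, hb, hx⟩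
        · exact Or.inr ⟨b, hb, hx⟩
      · rintro (⟨b, hb, hx⟩ | ⟨b, hb, hx⟩)
        · exact ⟨b, hb, Or.inl hx⟩
        · exact ⟨b, hb, Or.inr hx⟩
    rw [this]
    exact ih1.union ih2
  | unary o D hD =>
    cases o with
    | none =>
      have := BA.unary i _ (def1_pre hD g)
      convert this using 1
      ext x
      simp only [mem_ofPred_eq, ext', Option.elim]
      constructor
      · rintro ⟨b, h1, h2⟩; exact ⟨b, h2, h1⟩
      · rintro ⟨b, h1, h2⟩; exact ⟨b, h2, h1⟩
    | some j =>
      have := (dom (A := A) i g).inter (BA.unary j D hD)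
      convert this using 1
      ext x
      simp only [mem_ofPred_eq, ext', Option.elim, mem_inter_iff]
      constructor
      · rintro ⟨b, h1, h2⟩; exact ⟨⟨b, h1⟩, h2⟩
      · rintro ⟨⟨b, h1⟩, h2⟩; exact ⟨b, h1, h2⟩
  | rel o1 o2 h =>
    cases o1 with
    | none =>
      cases o2 with
      | none =>
        have := (dom (A := A) i g).inter (const (A := A) (ι := ι) (h = 1))
        convert this using 1
        ext x
        simp only [mem_ofPred_eq, ext', Option.elim, mem_inter_iff]
        constructor
        · rintro ⟨b, h1, h2⟩; exact ⟨⟨b, h1⟩, by simpa using h2⟩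
        · rintro ⟨⟨b, h1⟩, h2⟩; exact ⟨b, h1, by simpa using h2⟩
      | some j =>
        have := (dom (A := A) i g).inter (BA.rel i j (g * h))
        convert this using 1
        ext x
        simp only [mem_ofPred_eq, ext', Option.elim, mem_inter_iff]
        constructor
        · rintro ⟨b, h1, h2⟩; exact ⟨⟨b, h1⟩, by rw [← mul_assoc, h1, h2]⟩
        · rintro ⟨⟨b, h1⟩, h2⟩; exact ⟨b, h1, by rw [← h1, mul_assoc, h2]⟩
    | some j =>
      cases o2 with
      | none =>
        have := (dom (A := A) i g).inter (BA.rel j i (h * g⁻¹))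
        convert this using 1
        ext x
        simp only [mem_ofPred_eq, ext', Option.elim, mem_inter_iff]
        constructor
        · rintro ⟨b, h1, h2⟩
          exact ⟨⟨b, h1⟩, by rw [← mul_assoc, h2, ← h1]; group⟩
        · rintro ⟨⟨b, h1⟩, h2⟩
          exact ⟨b, h1, by rw [← h1, ← h2]; group⟩
      | some k =>
        have := (dom (A := A) i g).inter (BA.rel j k h)
        convert this using 1
        ext x
        simp only [mem_ofPred_eq, ext', Option.elim, mem_inter_iff]
        constructor
        · rintro ⟨b, h1, h2⟩; exact ⟨⟨b, h1⟩, h2⟩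
        · rintro ⟨⟨b, h1⟩, h2⟩; exact ⟨b, h1, h2⟩

theorem far_dom {Γ : Finset G} {D : Set A} (hD : Def1 A D) [Finite ι] :
    BA A ι {x | ∃ b ∈ D, ∀ i, ∀ g ∈ Γ, ((x i : A) : G) * g ≠ b} := by
  classical
  by_cases hfin : D.Finite
  · have hset : {x : ι → A | ∃ b ∈ D, ∀ i, ∀ g ∈ Γ, ((x i : A) : G) * g ≠ b} =
        ⋃ b : hfin.toFinset, ⋂ i : ι, ⋂ g : Γ, {x | x i ∈ {m : A | ∃ c ∈ ({b.1} : Set A), (m : G) * g = c}}ᶜ := by
      ext x
      simp
    rw [hset]
    exact iUnion_fin fun b => iInter_fin fun i => iInter_fin fun g =>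
      (BA.unary i _ (def1_pre (def1_singleton A b.1) g)).compl
  · have hset : {x : ι → A | ∃ b ∈ D, ∀ i, ∀ g ∈ Γ, ((x i : A) : G) * g ≠ b} = univ := by
      ext x
      simp only [mem_univ, iff_true, mem_ofPred_eq]
      have hnear : {b : A | ∃ i : ι, ∃ g ∈ Γ, ((x i : A) : G) * g = b}.Finite := by
        have h1 : (range (fun p : ι × Γ => ((x p.1 : A) : G) * p.2)).Finite := finite_range _
        refine (h1.preimage (f := ((↑) : A → G)) Subtype.val_injective.injOn).subset ?_
        rintro b ⟨i, g, hg, h⟩
        exact ⟨(i, ⟨g, hg⟩), h⟩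
      obtain ⟨b, hbD, hb⟩ := Set.Infinite.exists_notMem_finite hfin hnear
      refine ⟨b, hbD, fun i g hg h => hb ⟨i, g, hg, h⟩⟩
    rw [hset]
    exact univ'

theorem far {s : Set (Option ι → A)} (h : BA A (Option ι) s) :
    ∃ (Γ : Finset G) (J : Type) (_ : Finite J) (τ : (ι → A) → J) (D : J → Set A),
      (∀ j, Def1 A (D j)) ∧ (∀ j, BA A ι {x | τ x = j}) ∧
      ∀ (x : ι → A) (b : A), (∀ i, ∀ g ∈ Γ, ((x i : A) : G) * g ≠ b) →
        (ext' x b ∈ s ↔ b ∈ D (τ x)) := by
  classical
  induction h with
  | empty =>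
    refine ⟨∅, Unit, inferInstance, fun _ => (), fun _ => ∅, fun _ => def1_empty A, fun _ => ?_, ?_⟩
    · exact const _
    · intro x b _
      simp
  | @compl s _ ih =>
    obtain ⟨Γ, J, hJ, τ, D, h1, h2, h3⟩ := ih
    refine ⟨Γ, J, hJ, τ, fun j => (D j)ᶜ, fun j => def1_compl (h1 j), h2, ?_⟩
    intro x b hb
    rw [mem_compl_iff, mem_compl_iff, h3 x b hb]
  | @union s t _ _ ih1 ih2 =>
    obtain ⟨Γ, J, hJ, τ, D, h1, h2, h3⟩ := ih1
    obtain ⟨Γ', J', hJ', τ', D', h1', h2', h3'⟩ := ih2
    refine ⟨Γ ∪ Γ', J × J', inferInstance, fun x => (τ x, τ' x), fun j => D j.1 ∪ D' j.2,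
      fun j => def1_union (h1 j.1) (h1' j.2), fun j => ?_, ?_⟩
    · have := (h2 j.1).inter (h2' j.2)
      convert this using 1
      ext x
      simp [Prod.ext_iff]
    · intro x b hb
      rw [mem_union, mem_union, h3 x b (fun i g hg => hb i g (Finset.mem_union_left _ hg)),
        h3' x b (fun i g hg => hb i g (Finset.mem_union_right _ hg))]
  | unary o D hD =>
    cases o with
    | none =>
      refine ⟨∅, Unit, inferInstance, fun _ => (), fun _ => D, fun _ => hD, fun _ => const _, ?_⟩
      intro x b _
      simp [ext']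
    | some i =>
      refine ⟨∅, Bool, inferInstance, fun x => decide (x i ∈ D), fun j => {_b | j = true},
        fun j => ?_, fun j => ?_, ?_⟩
      · cases j
        · simpa using def1_empty A
        · simpa using def1_univ A
      · cases j
        · have := (BA.unary i D hD).compl
          convert this using 1
          ext x
          simp
        · have := (BA.unary i D hD)
          convert this using 1
          ext x
          simp
      · intro x b _
        simp [ext']
  | rel o1 o2 g =>
    cases o1 with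
    | none =>
      cases o2 with
      | none =>
        refine ⟨∅, Unit, inferInstance, fun _ => (), fun _ => {_b | g = 1}, fun _ => ?_,
          fun _ => const _, ?_⟩
        · by_cases hg : g = 1
          · simpa [hg] using def1_univ A
          · simpa [hg] using def1_empty A
        · intro x b _
          simp [ext']
      | some i =>
        refine ⟨{g⁻¹}, Unit, inferInstance, fun _ => (), fun _ => ∅, fun _ => def1_empty A,
          fun _ => const _, ?_⟩
        intro x b hb
        have := hb i g⁻¹ (by simp)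
        simp only [ext', mem_ofPred_eq, Option.elim, mem_empty_iff_false, iff_false]
        intro h
        exact this (by rw [← h]; group)
    | some i =>
      cases o2 with
      | none =>
        refine ⟨{g}, Unit, inferInstance, fun _ => (), fun _ => ∅, fun _ => def1_empty A,
          fun _ => const _, ?_⟩
        intro x b hb
        have := hb i g (by simp)
        simp only [ext', mem_ofPred_eq, Option.elim, mem_empty_iff_false, iff_false]
        exact this
      | some j =>
        refine ⟨∅, Bool, inferInstance, fun x => decide (((x i : A) : G) * g = x j),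
          fun j => {_b | j = true}, fun j => ?_, fun k => ?_, ?_⟩
        · cases j
          · simpa using def1_empty A
          · simpa using def1_univ A
        · cases k
          · have := (BA.rel (A := A) i j g).compl
            convert this using 1
            ext x
            simp
          · have := (BA.rel (A := A) i j g)
            convert this using 1
            ext x
            simp
        · intro x b _
          simp [ext']

theorem proj [Finite ι] {s : Set (Option ι → A)} (h : BA A (Option ι) s) :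
    BA A ι {x | ∃ b : A, ext' x b ∈ s} := by
  classical
  obtain ⟨Γ, J, hJ, τ, D, h1, h2, h3⟩ := far h
  have hset : {x : ι → A | ∃ b : A, ext' x b ∈ s} =
      (⋃ i : ι, ⋃ g : Γ, {x | ∃ b : A, ((x i : A) : G) * (g : G) = b ∧ ext' x b ∈ s}) ∪
      ⋃ j : J, ({x | τ x = j} ∩ {x | ∃ b ∈ D j, ∀ i, ∀ g ∈ Γ, ((x i : A) : G) * g ≠ b}) := by
    ext x
    simp only [mem_ofPred_eq, mem_union, mem_iUnion, mem_inter_iff]
    constructor
    · rintro ⟨b, hb⟩
      by_cases hfar : ∀ i, ∀ g ∈ Γ, ((x i : A) : G) * g ≠ b
      · right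
        exact ⟨τ x, rfl, b, (h3 x b hfar).1 hb, hfar⟩
      · left
        push Not at hfar
        obtain ⟨i, g, hg, hgb⟩ := hfar
        exact ⟨i, ⟨g, hg⟩, b, hgb, hb⟩
    · rintro (⟨i, g, b, _, hb⟩ | ⟨j, rfl, b, hb, hfar⟩)
      · exact ⟨b, hb⟩
      · exact ⟨b, (h3 x b hfar).2 hb⟩
  rw [hset]
  refine BA.union (iUnion_fin fun i => iUnion_fin fun (g : Γ) => sub h i (g : G)) ?_
  exact iUnion_fin fun j => (h2 j).inter (far_dom (h1 j))

/-- Either a coordinate or a constant. -/
theorem term_cases {α : Type} {k : ℕ} (t : (LG G).Term (((univ : Set A) ⊕ α) ⊕ Fin k)) :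
    (∃ i : α ⊕ Fin k, ∀ x : α ⊕ Fin k → A,
      t.realize (Sum.elim (Sum.elim (fun a : (univ : Set A) => (a : A)) (x ∘ Sum.inl))
        (x ∘ Sum.inr)) = x i) ∨
    (∃ m : A, ∀ x : α ⊕ Fin k → A,
      t.realize (Sum.elim (Sum.elim (fun a : (univ : Set A) => (a : A)) (x ∘ Sum.inl))
        (x ∘ Sum.inr)) = m) := by
  cases t with
  | var v =>
    rcases v with (⟨m, hm⟩ | a) | j
    · exact Or.inr ⟨m, fun x => rfl⟩
    · exact Or.inl ⟨Sum.inl a, fun x => rfl⟩
    · exact Or.inl ⟨Sum.inr j, fun x => rfl⟩
  | func f ts => exact isEmptyElim f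

theorem term_rel {α : Type} {k : ℕ} (t₁ t₂ : (LG G).Term (((univ : Set A) ⊕ α) ⊕ Fin k)) (g : G) :
    BA A (α ⊕ Fin k) {x | ((t₁.realize (Sum.elim (Sum.elim (fun a : (univ : Set A) => (a : A))
      (x ∘ Sum.inl)) (x ∘ Sum.inr)) : A) : G) * g =
      t₂.realize (Sum.elim (Sum.elim (fun a : (univ : Set A) => (a : A))
      (x ∘ Sum.inl)) (x ∘ Sum.inr))} := by
  rcases term_cases t₁ with ⟨i, hi⟩ | ⟨m, hm⟩
  · rcases term_cases t₂ with ⟨j, hj⟩ | ⟨m', hm'⟩
    · simp only [hi, hj]
      exact BA.rel i j g
    · simp only [hi, hm']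
      have := BA.unary i _ (def1_pre (def1_singleton A m') g)
      simpa using this
  · rcases term_cases t₂ with ⟨j, hj⟩ | ⟨m', hm'⟩
    · simp only [hm, hj]
      by_cases h : ∃ b : A, (m : G) * g = b
      · obtain ⟨b, hb⟩ := h
        have := BA.unary (A := A) j _ (def1_singleton A b)
        convert this using 1
        ext x
        simp only [mem_ofPred_eq, mem_singleton_iff, hb]
        rw [Subtype.ext_iff, eq_comm]
      · have : {x : α ⊕ Fin k → A | (m : G) * g = x j} = ∅ := by
          ext x
          simp only [mem_ofPred_eq, mem_empty_iff_false, iff_false]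
          exact fun h' => h ⟨_, h'⟩
        rw [this]
        exact BA.empty
    · simp only [hm, hm']
      exact const _

theorem formula {α : Type} [Finite α] {k : ℕ} (φ : (LG G).BoundedFormula ((univ : Set A) ⊕ α) k) :
    BA A (α ⊕ Fin k) {x | φ.Realize (Sum.elim (fun a : (univ : Set A) => (a : A)) (x ∘ Sum.inl))
      (x ∘ Sum.inr)} := by
  induction φ with
  | falsum => exact const _
  | equal t₁ t₂ =>
    have := term_rel (A := A) t₁ t₂ 1
    convert this using 1
    ext x
    simp only [mem_ofPred_eq, mul_one]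
    rw [← Subtype.ext_iff]
    rfl
  | @rel n l R ts =>
    cases R with
    | mk g => exact term_rel (ts 0) (ts 1) g
  | imp _ _ ih1 ih2 =>
    have := ih1.compl.union ih2
    convert this using 1
    ext x
    simp only [mem_ofPred_eq, mem_union, mem_compl_iff, BoundedFormula.realize_imp]
    tauto
  | @all n φ ih =>
    let c : α ⊕ Fin (n + 1) → Option (α ⊕ Fin n) :=
      Sum.elim (fun a => some (Sum.inl a)) (Fin.snoc (fun j => some (Sum.inr j)) none)
    have := (proj (comap c ih.compl)).compl
    convert this using 1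
    ext x
    simp only [mem_ofPred_eq, mem_compl_iff, not_exists, not_not, BoundedFormula.realize_all]
    refine forall_congr' fun b => ?_
    have e1 : (ext' x b ∘ c) ∘ Sum.inl = x ∘ Sum.inl := by
      ext a
      simp [c, ext']
    have e2 : (ext' x b ∘ c) ∘ Sum.inr = Fin.snoc (x ∘ Sum.inr) b := by
      ext j
      refine Fin.lastCases ?_ (fun i => ?_) j
      · simp [c, ext']
      · simp [c, ext']
    rw [e1, e2]

theorem definable {n : ℕ} {s : Set (Fin n → A)} (h : (univ : Set A).Definable (LG G) s) :
    BA A (Fin n) s := by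
  rw [definable_iff_exists_formula_sum] at h
  obtain ⟨φ, rfl⟩ := h
  have h1 := formula φ
  have h2 := comap (Sum.elim id Fin.elim0 : Fin n ⊕ Fin 0 → Fin n) h1
  convert h2 using 1
  ext x
  simp only [mem_ofPred_eq, Formula.Realize]
  have e1 : (x ∘ (Sum.elim id Fin.elim0 : Fin n ⊕ Fin 0 → Fin n)) ∘ Sum.inl = x := by
    ext i
    simp
  rw [e1]
  have e2 : (x ∘ (Sum.elim id Fin.elim0 : Fin n ⊕ Fin 0 → Fin n)) ∘ Sum.inr = default :=
    Subsingleton.elim _ _
  rw [e2]

end BA

theorem mutAlg (A : Set G) (n : ℕ) (s : Set (Fin n → A))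
    (hs : (univ : Set A).Definable (LG G) s) (F : Set (Set (Fin n → A))) (h0 : ∅ ∈ F)
    (h1 : ∀ u ∈ F, uᶜ ∈ F) (h2 : ∀ u ∈ F, ∀ v ∈ F, u ∪ v ∈ F)
    (h3 : ∀ (m : ℕ) (f : Fin m → Fin n) (t : Set (Fin m → A)), Function.Injective f →
           (Set.univ : Set A).Definable (LG G) t →
           (m = 1 ∨ (2 ≤ m ∧ ∃ K : ℕ, ∀ (i : Fin m) (a : A),
              ({b ∈ t | b i = a}).encard ≤ (K : ℕ∞))) →
           {x : Fin n → A | x ∘ f ∈ t} ∈ F) : s ∈ F := by
  have h := BA.definable hs
  clear hs
  induction h with
  | empty => exact h0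
  | compl _ ih => exact h1 _ ih
  | union _ _ ih1 ih2 => exact h2 _ ih1 _ ih2
  | unary i D hD =>
    have := h3 1 (fun _ => i) {v : Fin 1 → A | v 0 ∈ D} (fun a b _ => Subsingleton.elim _ _) hD
      (Or.inl rfl)
    exact this
  | rel i j g =>
    by_cases hij : i = j
    · subst hij
      by_cases hg : g = 1
      · have h4 := h3 1 (fun _ => i) univ (fun a b _ => Subsingleton.elim _ _) definable_univ
          (Or.inl rfl)
        convert h4 using 1
        ext x
        simp [hg]
      · convert h0 using 1
        ext x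
        simp [hg]
    · have h4 := h3 2 ![i, j] {v : Fin 2 → A | (v 0 : G) * g = v 1} (by
        intro a b hab
        fin_cases a <;> fin_cases b <;> simp_all [eq_comm]) (definable_rel A g) (by
        refine Or.inr ⟨le_rfl, 1, fun k a => ?_⟩
        rw [Nat.cast_one, Set.encard_le_one_iff]
        rintro v w ⟨hv1, hv2⟩ ⟨hw1, hw2⟩
        simp only [mem_ofPred_eq] at hv1 hw1
        fin_cases k
        · simp only [Fin.zero_eta, Fin.isValue] at hv2 hw2
          ext l
          fin_cases l
          · simp [hv2, hw2]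
          · simp only [Fin.mk_one, Fin.isValue]
            rw [← hv1, ← hw1, hv2, hw2]
        · simp only [Fin.mk_one, Fin.isValue] at hv2 hw2
          ext l
          fin_cases l
          · simp only [Fin.zero_eta, Fin.isValue]
            have e : ((v 0 : A) : G) * g = (w 0 : A) * g := by rw [hv1, hw1, hv2, hw2]
            exact mul_right_cancel e
          · simp [hv2, hw2])
      exact h4

end Pool.Agent.H74.Sib
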