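import Mathlib
import Pool.Agent.H74.SibGroup
import Pool.Agent.H74.SibModel

set_option autoImplicit false

namespace Pool.Agent.H74.Sib

open FirstOrder FirstOrder.Language Set Cardinal

section Count

variable {G : Type} [Group G]

theorem exists_translation {α β : Type} (i : α → G) (j : β → G) (f : α → β)
    (hf : ∀ a b (g : G), i a * g = i b → j (f a) * g = j (f b)) :
    ∃ h, ∀ a, j (f a) = h * i a := by
  by_cases hα : Nonempty α
  · obtain ⟨a0⟩ := hα
    refine ⟨j (f a0) * (i a0)⁻¹, fun a => ?_⟩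
    have := hf a0 a ((i a0)⁻¹ * i a) (by group)
    rw [← this]
    group
  · exact ⟨1, fun a => (hα ⟨a⟩).elim⟩

/-- Every subset is a substructure. -/
def subOf (A : Set G) (X : Set G) : (LG G).Substructure A where
  carrier := {a | (a : G) ∈ X}
  fun_mem := fun f => f.elim

theorem mem_subOf {A X : Set G} {a : A} : a ∈ subOf A X ↔ (a : G) ∈ X := Iff.rfl

theorem relMap_sub {A : Set G} (N : (LG G).Substructure A) (g : G) (v : Fin 2 → N) :
    Structure.RelMap (relSym g) v ↔ (((v 0 : N) : A) : G) * g = ((v 1 : N) : A) :=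
  Iff.rfl

/-- translation by `g` as an equivalence of substructures. -/
theorem equiv_of {A : Set G} (N N' : (LG G).Substructure A) (g : G)
    (h1 : ∀ a : A, a ∈ N → ∃ b : A, b ∈ N' ∧ (b : G) = g * a)
    (h2 : ∀ b : A, b ∈ N' → ∃ a : A, a ∈ N ∧ (b : G) = g * a) :
    Nonempty ((LG G).Equiv N N') := by
  classical
  choose f hf1 hf2 using h1
  choose k hk1 hk2 using h2
  refine ⟨{ toFun := fun a => ⟨f a.1 a.2, hf1 a.1 a.2⟩
            invFun := fun b => ⟨k b.1 b.2, hk1 b.1 b.2⟩
            left_inv := ?_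
            right_inv := ?_
            map_fun' := fun f => f.elim
            map_rel' := ?_ }⟩
  · intro a
    apply Subtype.ext
    apply Subtype.ext
    have := hk2 _ (hf1 a.1 a.2)
    rw [hf2] at this
    exact (mul_left_cancel this).symm
  · intro b
    apply Subtype.ext
    apply Subtype.ext
    show ((f _ _ : A) : G) = b.1
    rw [hf2, ← hk2]
  · intro n R v
    cases R with
    | mk r =>
      show ((f (v 0).1 (v 0).2 : A) : G) * r = (f (v 1).1 (v 1).2 : A) ↔
        (((v 0).1 : A) : G) * r = ((v 1).1 : A)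
      rw [hf2, hf2, mul_assoc]
      exact mul_right_inj g

theorem embed_of {A : Set G} (N : (LG G).Substructure A) (g : G)
    (h1 : ∀ a : A, ∃ b : A, b ∈ N ∧ (b : G) = g * a) :
    Nonempty ((LG G).Embedding A N) := by
  classical
  choose f hf1 hf2 using h1
  refine ⟨{ toFun := fun a => ⟨f a, hf1 a⟩
            inj' := ?_
            map_fun' := fun f => f.elim
            map_rel' := ?_ }⟩
  · intro a b hab
    have : (f a : G) = f b := by
      have := congrArg (fun z : N => ((z : A) : G)) hab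
      exact this
    rw [hf2, hf2] at this
    exact Subtype.ext (mul_left_cancel this)
  · intro n R v
    cases R with
    | mk r =>
      show ((f (v 0) : A) : G) * r = (f (v 1) : A) ↔ ((v 0 : A) : G) * r = (v 1 : A)
      rw [hf2, hf2, mul_assoc]
      exact mul_right_inj g

theorem of_embed {A : Set G} (N : (LG G).Substructure A)
    (e : (LG G).Embedding A N) : ∃ g : G, ∀ a : A, (((e a : N) : A) : G) = g * a := by
  refine exists_translation (fun a : A => (a : G)) (fun b : N => ((b : A) : G)) e ?_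
  intro a b g hab
  have := e.map_rel (relSym g) ![a, b]
  rw [relMap_mk, relMap_sub] at this
  exact this.2 hab

theorem of_equiv {A : Set G} (N N' : (LG G).Substructure A)
    (e : (LG G).Equiv N N') : ∃ g : G, ∀ a : N, (((e a : N') : A) : G) = g * (a : A) := by
  refine exists_translation (fun a : N => ((a : A) : G)) (fun b : N' => ((b : A) : G)) e ?_
  intro a b g hab
  have := e.map_rel (relSym g) ![a, b]
  rw [relMap_sub, relMap_sub] at this
  exact this.2 hab

theorem classify {A : Set G}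
    (hpair : ∀ x ∈ A, ∀ y ∈ A, x ≠ y → ∃ g, ∀ u, g⁻¹ * u ∈ A ↔ (u ∈ A ∧ u ≠ x ∧ u ≠ y))
    (htrans : ∀ x ∈ A, ∀ y ∈ A, ∃ g, ∀ u, (g⁻¹ * u ∈ A ∧ g⁻¹ * u ≠ x) ↔ (u ∈ A ∧ u ≠ y))
    {x0 : G} (hx0 : x0 ∈ A) :
    ∀ n : ℕ, ∀ B : Set G, B.Finite → B.ncard = n → B ⊆ A →
      (∃ g, ∀ u, g⁻¹ * u ∈ A ↔ (u ∈ A ∧ u ∉ B)) ∨
      (∃ g, ∀ u, (g⁻¹ * u ∈ A ∧ g⁻¹ * u ≠ x0) ↔ (u ∈ A ∧ u ∉ B)) := by
  intro n
  induction n using Nat.strong_induction_on with
  | _ n ih =>
    intro B hfin hcard hBA
    rcases Nat.lt_trichotomy n 1 with h | h | h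
    · have h0 : n = 0 := by omega
      subst h0
      rw [Set.ncard_eq_zero hfin] at hcard
      subst hcard
      exact Or.inl ⟨1, fun u => by simp⟩
    · subst h
      rw [Set.ncard_eq_one] at hcard
      obtain ⟨y, rfl⟩ := hcard
      obtain ⟨g, hg⟩ := htrans x0 hx0 y (hBA rfl)
      exact Or.inr ⟨g, fun u => by simpa using hg u⟩
    · rw [← hcard, Set.one_lt_ncard_iff hfin] at h
      obtain ⟨x, y, hx, hy, hxy⟩ := h
      obtain ⟨g, hg⟩ := hpair x (hBA hx) y (hBA hy) hxy
      let C : Set G := B \ {x, y}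
      have hC : {v | g * v ∈ C} = (fun v => g⁻¹ * v) '' C := by
        ext u
        constructor
        · intro hu
          exact ⟨g * u, hu, by simp⟩
        · rintro ⟨v, hv, rfl⟩
          simpa using hv
      have hCfin : C.Finite := hfin.subset (fun u hu => hu.1)
      have hClt : C.ncard < n := by
        rw [← hcard]
        apply Set.ncard_lt_ncard _ hfin
        refine ⟨fun u hu => hu.1, fun h => ?_⟩
        exact (h hx).2 (by simp)
      have hB'fin : {v | g * v ∈ C}.Finite := by rw [hC]; exact hCfin.image _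
      have hB'card : {v | g * v ∈ C}.ncard < n := by
        rw [hC, Set.ncard_image_of_injective _ (mul_right_injective g⁻¹)]
        exact hClt
      have hB'A : {v | g * v ∈ C} ⊆ A := by
        intro v hv
        have := (hg (g * v)).2 ⟨hBA hv.1, fun h => hv.2 (by simp [h]), fun h => hv.2 (by simp [h])⟩
        simpa using this
      have key : ∀ u, (g⁻¹ * u ∈ A ∧ g⁻¹ * u ∉ {v | g * v ∈ C}) ↔ (u ∈ A ∧ u ∉ B) := by
        intro u
        rw [hg u]
        simp only [C, mem_ofPred_eq, mul_inv_cancel_left, mem_sdiff, mem_insert_iff,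
          mem_singleton_iff, not_or, not_and]
        constructor
        · rintro ⟨⟨h1, h2, h3⟩, h4⟩
          exact ⟨h1, fun h5 => h4 h5 h2 h3⟩
        · rintro ⟨h1, h2⟩
          refine ⟨⟨h1, ?_, ?_⟩, fun h => (h2 h).elim⟩
          · rintro rfl; exact h2 hx
          · rintro rfl; exact h2 hy
      rcases ih _ hB'card _ hB'fin rfl hB'A with ⟨g', hg'⟩ | ⟨g', hg'⟩
      · left
        refine ⟨g * g', fun u => ?_⟩
        rw [← key, ← hg', mul_inv_rev, mul_assoc]
      · right
        refine ⟨g * g', fun u => ?_⟩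
        rw [← key, ← hg', mul_inv_rev, mul_assoc]

theorem card_siblings (A : Set G) (hinf : A.Infinite)
    (hpar : ∀ g, EvenFin (diffSet A g))
    (hpair : ∀ x ∈ A, ∀ y ∈ A, x ≠ y → ∃ g, ∀ u, g⁻¹ * u ∈ A ↔ (u ∈ A ∧ u ≠ x ∧ u ≠ y))
    (htrans : ∀ x ∈ A, ∀ y ∈ A, ∃ g, ∀ u, (g⁻¹ * u ∈ A ∧ g⁻¹ * u ≠ x) ↔ (u ∈ A ∧ u ≠ y)) :
    Cardinal.mk (Quot (fun N N' : {N : (LG G).Substructure A //
        Nonempty ((LG G).Embedding A ↥N)} => Nonempty ((LG G).Equiv ↥N.1 ↥N'.1))) = 2 := by
  classical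
  obtain ⟨x0, hx0⟩ := hinf.nonempty
  obtain ⟨y0, hy0, hy0'⟩ := hinf.exists_notMem_finite (Set.finite_singleton x0)
  have hxy : x0 ≠ y0 := fun h => hy0' (by simp [h])
  let N1 : {N : (LG G).Substructure A // Nonempty ((LG G).Embedding A ↥N)} :=
    ⟨subOf A A, embed_of _ 1 (fun a => ⟨a, a.2, by simp⟩)⟩
  let N2 : {N : (LG G).Substructure A // Nonempty ((LG G).Embedding A ↥N)} :=
    ⟨subOf A (A \ {x0}), by
      obtain ⟨g, hg⟩ := hpair x0 hx0 y0 hy0 hxy
      refine embed_of _ g (fun a => ?_)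
      have := (hg (g * a)).1 (by simp)
      exact ⟨⟨g * a, this.1⟩, ⟨this.1, this.2.1⟩, rfl⟩⟩
  set r := (fun N N' : {N : (LG G).Substructure A //
        Nonempty ((LG G).Embedding A ↥N)} => Nonempty ((LG G).Equiv ↥N.1 ↥N'.1)) with hr
  have heq : Equivalence r :=
    ⟨fun N => ⟨FirstOrder.Language.Equiv.refl (LG G) N.1⟩, fun ⟨e⟩ => ⟨e.symm⟩,
      fun ⟨e⟩ ⟨e'⟩ => ⟨e'.comp e⟩⟩
  rw [Cardinal.mk_eq_two_iff]
  refine ⟨Quot.mk r N2, Quot.mk r N1, ?_, ?_⟩
  · intro h
    rw [heq.quot_mk_eq_iff] at h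
    obtain ⟨e⟩ := h
    obtain ⟨g, hg⟩ := of_equiv _ _ e
    have h1 : ∀ u, (g⁻¹ * u ∈ A ∧ g⁻¹ * u ≠ x0) ↔ u ∈ A := by
      intro u
      constructor
      · rintro ⟨h1, h2⟩
        have := hg ⟨⟨g⁻¹ * u, h1⟩, ⟨h1, h2⟩⟩
        simp only [mul_inv_cancel_left] at this
        rw [← this]
        exact Subtype.mem _
      · intro hu
        have h3 := hg (e.symm ⟨⟨u, hu⟩, hu⟩)
        rw [FirstOrder.Language.Equiv.apply_symm_apply] at h3
        have h4 : g⁻¹ * u = ((e.symm ⟨⟨u, hu⟩, hu⟩ : N2.1) : A) := by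
          rw [inv_mul_eq_iff_eq_mul]
          exact h3
        rw [h4]
        exact (e.symm ⟨⟨u, hu⟩, hu⟩).2
    have h2 : diffSet A g = {g * x0} := by
      ext u
      simp only [diffSet, mem_ofPred_eq, mem_singleton_iff]
      rw [← h1 u]
      constructor
      · intro h
        have : g⁻¹ * u = x0 := by
          by_contra h'
          exact h ⟨fun h'' => h''.1, fun h'' => ⟨h'', h'⟩⟩
        rw [← this]
        group
      · rintro rfl
        simp [hx0]
    have h3 := (hpar g).2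
    rw [h2, Set.ncard_singleton] at h3
    exact absurd h3 (by decide)
  · rw [Set.eq_univ_iff_forall]
    intro q
    induction q using Quot.inductionOn with
    | h N =>
      obtain ⟨e⟩ := N.2
      obtain ⟨g, hg⟩ := of_embed _ e
      let B : Set G := {u | u ∈ A ∧ ∀ h : u ∈ A, (⟨u, h⟩ : A) ∉ N.1}
      have hBA : B ⊆ A := fun u hu => hu.1
      have hBfin : B.Finite := by
        refine (hpar g).1.subset ?_
        rintro u ⟨hu, hu'⟩
        simp only [diffSet, mem_ofPred_eq, hu, true_iff]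
        intro h
        have h1 := hg ⟨g⁻¹ * u, h⟩
        simp only [mul_inv_cancel_left] at h1
        apply hu' hu
        have h2 : (⟨u, hu⟩ : A) = ((e ⟨g⁻¹ * u, h⟩ : N.1) : A) := Subtype.ext h1.symm
        rw [h2]
        exact Subtype.mem _
      have hN : ∀ a : A, a ∈ N.1 ↔ ((a : G) ∈ A ∧ (a : G) ∉ B) := by
        intro a
        constructor
        · intro h
          exact ⟨a.2, fun h' => h'.2 a.2 h⟩
        · rintro ⟨h1, h2⟩
          by_contra h3
          exact h2 ⟨h1, fun _ => h3⟩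
      rcases classify hpair htrans hx0 _ B hBfin rfl hBA with ⟨k, hk⟩ | ⟨k, hk⟩
      · right
        show Quot.mk r N = Quot.mk r N1
        symm
        apply Quot.sound
        refine equiv_of _ _ k ?_ ?_
        · intro a _
          have h1 := (hk (k * a)).1 (by simp)
          exact ⟨⟨k * a, h1.1⟩, (hN _).2 h1, rfl⟩
        · intro b hb
          have h1 := (hk b).2 ((hN b).1 hb)
          exact ⟨⟨k⁻¹ * b, h1⟩, h1, by simp⟩
      · left
        symm
        apply Quot.sound
        refine equiv_of _ _ k ?_ ?_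
        · rintro a ⟨ha1, ha2⟩
          have h1 := (hk (k * a)).1 (by simpa using ha2)
          exact ⟨⟨k * a, h1.1⟩, (hN _).2 h1, rfl⟩
        · intro b hb
          have h1 := (hk b).2 ((hN b).1 hb)
          exact ⟨⟨k⁻¹ * b, h1.1⟩, h1, by simp⟩

end Count

end Pool.Agent.H74.Sib
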